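import Pool.Agent.Lib.MP_b020d4_co.Doubling

/-!
# Sidon sets which are mapped to a translate by doubling

Let `A` be a Sidon set with `k` elements in a finite abelian group `G` of odd order such that
`2 A` is a translate of `A` (`2` is a multiplier of `A`). Then `A` is a perfect difference set or
`k ^ 2 ≤ |G| + 1`, and `k ^ 2 < |G|` if `k` is odd or `|G|` is a prime.
-/

set_option autoImplicit false

open Finset Pool.Agent.Lib.MP_b020d4_co

namespace Pool.Agent.Results.MP_b020d4_co.DoublingInvariant

theorem result {G : Type*} [AddCommGroup G] [Fintype G] (hG : Odd (Fintype.card G))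
    (A : Finset G)
    (hA : ∀ a ∈ A, ∀ b ∈ A, ∀ c ∈ A, ∀ d ∈ A,
      a + b = c + d → (a = c ∧ b = d) ∨ (a = d ∧ b = c))
    (s : G) (hs : ∀ a ∈ A, a + a + s ∈ A) :
    (Fintype.card G + A.card = A.card ^ 2 + 1 ∧ ∀ g : G, g ≠ 0 → ∃ a ∈ A, ∃ b ∈ A, a - b = g) ∨
    (A.card ^ 2 ≤ Fintype.card G + 1 ∧ (Odd A.card → A.card ^ 2 < Fintype.card G) ∧
      ((Fintype.card G).Prime → A.card ^ 2 < Fintype.card G)) := by
  classical
  have hS : Sid A := hA
  have hc := card_eq hS
  have hN : ∀ a ∈ A, a + a - (-s) ∈ A := by
    intro a ha
    rw [sub_neg_eq_add]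
    exact hs a ha
  by_cases hr : (miss A).card = 0
  · left
    refine ⟨by rw [hr] at hc; nlinarith, ?_⟩
    intro g hg
    have h1 : g ∉ miss A := by
      rw [Finset.card_eq_zero] at hr
      rw [hr]
      exact Finset.notMem_empty g
    rw [mem_miss] at h1
    have h2 : 0 < rep A g := Nat.pos_of_ne_zero (fun h => h1 ⟨hg, h⟩)
    obtain ⟨b, hb⟩ := Finset.card_pos.mp h2
    rw [mem_filter] at hb
    exact ⟨b, hb.1, b - g, hb.2, by abel⟩
  · right
    have h1 : 1 ≤ (miss A).card := by omega
    have hodd : Odd A.card → A.card ^ 2 < Fintype.card G := by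
      intro hk
      have := doubling_odd hG hS hk hN h1
      nlinarith
    have hmain : A.card ^ 2 ≤ Fintype.card G + 1 := by
      rcases Nat.even_or_odd A.card with hk | hk
      · have := doubling_even hG hS hk hN
        nlinarith
      · have := hodd hk
        omega
    refine ⟨hmain, hodd, ?_⟩
    intro hp
    rcases Nat.even_or_odd A.card with hk | hk
    · by_contra hcon
      push Not at hcon
      -- |G| = k^2 - 1 or k^2, neither of them is a prime (except 3)
      have h3 : A.card ^ 2 = Fintype.card G ∨ A.card ^ 2 = Fintype.card G + 1 := by omega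
      rcases h3 with h3 | h3
      · rw [← h3] at hp
        exact Nat.Prime.not_prime_pow le_rfl hp
      · have h4 : 1 ≤ A.card := by
          by_contra h
          have : A.card = 0 := by omega
          rw [this] at h3
          simp at h3
        obtain ⟨m, hm⟩ := Nat.exists_eq_add_of_le h4
        have h5 : Fintype.card G = m * (m + 2) := by
          rw [hm] at h3
          nlinarith
        rw [h5] at hp
        rcases (Nat.prime_mul_iff.mp hp) with ⟨_, h6⟩ | ⟨_, h6⟩
        · omega
        · -- m = 1, |G| = 3, k = 2
          have h7 : A.card = 2 := by omega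
          have h8 : Fintype.card G = 3 := by rw [h5, h6]
          rw [h7, h8] at hc
          omega
    · exact hodd hk

end Pool.Agent.Results.MP_b020d4_co.DoublingInvariant
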