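import Pool.Agent.Lib.MP_b020d4_co.Final

/-!
# Sidon sets of odd size which are close to the maximal size

A Sidon set `A` with `k` elements in a finite abelian group `G` has `k (k - 1)` different nonzero
differences, so `|G| = k ^ 2 - k + 1 + r` with `r ≥ 0` nonzero elements which are no differences.
If `|G|` and `k` are odd then `r = 0` (perfect difference set) or `k ≤ (r + 1) (r + 2)`.

Idea: the lines `y - A` (`y ∈ G`) and the points of `G` form a partial plane in which `A` is an
oval with one tangent `2 a - A` in each of its points. Counting the tangents through a point mod 2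
shows that all points outside the `r` translates `A + d` (`d` no difference) lie on an odd number
of tangents; a second moment then produces a point on more than `r + 2` tangents (if `k` is large),
a line not tangent to `A` through it gives that the point is on all tangents, so `2 A` is a
translate of `A`, and then the parity at the points of `A + d` is violated.
-/

set_option autoImplicit false

open Finset Pool.Agent.Lib.MP_b020d4_co

namespace Pool.Agent.Results.MP_b020d4_co.OddNearMaximal

theorem result {G : Type*} [AddCommGroup G] [Fintype G] (hG : Odd (Fintype.card G))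
    (A : Finset G)
    (hA : ∀ a ∈ A, ∀ b ∈ A, ∀ c ∈ A, ∀ d ∈ A,
      a + b = c + d → (a = c ∧ b = d) ∨ (a = d ∧ b = c))
    (hk : Odd A.card) :
    (Fintype.card G + A.card = A.card ^ 2 + 1 ∧ ∀ g : G, ∃ a ∈ A, ∃ b ∈ A, a - b = g) ∨
    ∃ r : ℕ, 1 ≤ r ∧ Fintype.card G + A.card = A.card ^ 2 + 1 + r ∧
      A.card ≤ (r + 1) * (r + 2) ∧
      (A.card : ℝ) ≤ √(Fintype.card G : ℝ) + 1 / 2 - 1 / (2 * √(√(Fintype.card G : ℝ))) +
        3 / (8 * √(Fintype.card G : ℝ)) := by
  classical
  have hS : Sid A := hA
  have hc := card_eq hS
  by_cases hr : (miss A).card = 0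
  · left
    refine ⟨by rw [hr] at hc; nlinarith, ?_⟩
    intro g
    by_cases hg : g = 0
    · obtain ⟨a, ha⟩ := Finset.card_pos.mp hk.pos
      exact ⟨a, ha, a, ha, by rw [hg, sub_self]⟩
    · have h1 : g ∉ miss A := by
        rw [Finset.card_eq_zero] at hr
        rw [hr]
        exact Finset.notMem_empty g
      rw [mem_miss] at h1
      have h2 : 0 < rep A g := Nat.pos_of_ne_zero (fun h => h1 ⟨hg, h⟩)
      obtain ⟨b, hb⟩ := Finset.card_pos.mp h2
      rw [mem_filter] at hb
      exact ⟨b, hb.1, b - g, hb.2, by abel⟩
  · right
    have h1 : 1 ≤ (miss A).card := by omega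
    have h2 := main hG hS hk h1
    refine ⟨(miss A).card, h1, by rw [hc]; ring, h2, ?_⟩
    exact real_form hG.pos hc h2

end Pool.Agent.Results.MP_b020d4_co.OddNearMaximal
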